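import Pool.Agent.W23.KT.Defs
import Pool.Agent.H442R2.BX.Rc
import Pool.Agent.H442R2.BX.Pb

/-!
KT project (owner helper23), task PBK: pointwise bounds for the products of `k` linear forms.
Adapted from `Pool.Agent.W973.SG.PBL` (helper973).
-/

namespace Pool.Agent.W82.KT

open Finset
open Pool.Agent.H442R2
open Pool.Agent.H442R2.KF
open Pool.Agent.W23.DC
open Pool.Agent.W23.SG
open Pool.Agent.W23.KT

/-- size of a form -/
theorem lf_le {M N : ℕ} (hN : (1 : ℝ) ≤ N) {L : ℤ × ℕ} (hL : FoM M N L) (n : ℤ) :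
    |((lf L n : ℤ) : ℝ)| ≤ (N : ℝ) ^ (M + 1) * (1 + |(n : ℝ)| / N) := by
  have hN0 : (0 : ℝ) < N := by linarith
  have h1 : |((lf L n : ℤ) : ℝ)| = |(L.1 : ℝ) + L.2 * n| := by
    unfold lf
    push_cast
    rfl
  rw [h1]
  have h2 : |(L.1 : ℝ) + L.2 * n| ≤ |(L.1 : ℝ)| + |(L.2 : ℝ) * n| := abs_add_le _ _
  have h3 : |(L.2 : ℝ) * n| = (L.2 : ℝ) * |(n : ℝ)| := by
    rw [abs_mul, abs_of_nonneg (Nat.cast_nonneg _)]
  have h4 : (L.2 : ℝ) * |(n : ℝ)| ≤ (N : ℝ) ^ M * |(n : ℝ)| :=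
    mul_le_mul_of_nonneg_right hL.b2 (abs_nonneg _)
  have h5 : (N : ℝ) ^ (M + 1) * (1 + |(n : ℝ)| / N) = (N : ℝ) ^ (M + 1) + (N : ℝ) ^ M * |(n : ℝ)| := by
    rw [pow_succ]
    field_simp
  have h6 : (N : ℝ) ^ M ≤ (N : ℝ) ^ (M + 1) := pow_le_pow_right₀ hN (Nat.le_succ M)
  have h7 := hL.a
  rw [h5]
  linarith

/-- size of the product of the forms -/
theorem Fp_le {k M N : ℕ} (hN : (1 : ℝ) ≤ N) {S : Finset (ℤ × ℕ)} (hS : Sys k M N S) (n : ℤ) :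
    (((Fp S n).natAbs : ℕ) : ℝ) ≤ (N : ℝ) ^ ((M + 1) * k) * (1 + |(n : ℝ)| / N) ^ k := by
  rw [Nat.cast_natAbs]
  have h1 : ((|Fp S n| : ℤ) : ℝ) = ∏ L ∈ S, |((lf L n : ℤ) : ℝ)| := by
    unfold Fp
    push_cast
    rw [Finset.abs_prod]
  rw [h1]
  calc ∏ L ∈ S, |((lf L n : ℤ) : ℝ)| ≤ ∏ _L ∈ S, ((N : ℝ) ^ (M + 1) * (1 + |(n : ℝ)| / N)) :=
        prod_le_prod (fun _ _ => abs_nonneg _) fun L hL => lf_le hN (hS.fo L hL) n
    _ = (N : ℝ) ^ ((M + 1) * k) * (1 + |(n : ℝ)| / N) ^ k := by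
        rw [prod_const, hS.card, mul_pow, ← pow_mul]

open BX.TaskRC in
/-- the number of rough divisors of a nonzero integer `m` with `|m| ≤ N^T B^K` -/
theorem rd_card_le {ε : ℝ} (hε : 0 < ε) {N : ℕ} (X T K : ℕ) (hN2 : 2 ≤ N)
    (hN : Real.exp (4 * K / ε) ≤ (N : ℝ)) {B : ℝ}
    (hB1 : 1 ≤ B) {m : ℤ} (hm : m ≠ 0) (hmB : ((m.natAbs : ℕ) : ℝ) ≤ (N : ℝ) ^ T * B ^ K) :
    ((BX.rd ((N : ℝ) ^ ε) X m).card : ℝ) ≤ Real.exp (T / ε) * B ^ (1 / 4 : ℝ) := by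
  have hN0 : (0 : ℝ) < (N : ℝ) := lt_of_lt_of_le (Real.exp_pos _) hN
  have hlog : 4 * K / ε ≤ Real.log N := by
    rw [Real.le_log_iff_exp_le hN0]; exact hN
  have hlog0 : 0 < Real.log N := Real.log_pos (by exact_mod_cast hN2)
  have hεlog : 4 * (K : ℝ) ≤ ε * Real.log N := by
    rw [div_le_iff₀ hε] at hlog
    linarith
  have hN1' : (1 : ℝ) ≤ (N : ℝ) := by exact_mod_cast (by omega : 1 ≤ N)
  obtain ⟨y, hy⟩ : ∃ y : ℝ, y = (N : ℝ) ^ ε := ⟨_, rfl⟩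
  rw [← hy]
  have hy1 : 1 ≤ y := by rw [hy]; exact Real.one_le_rpow hN1' hε.le
  obtain ⟨k, hk1, hk2⟩ := rr_card y hy1 m.natAbs (Int.natAbs_pos.mpr hm)
  have hB0 : 0 < B := by linarith
  have hk3 : (k : ℝ) * (ε * Real.log N) ≤ T * Real.log N + K * Real.log B := by
    have h1 : Real.log (y ^ k) ≤ Real.log ((N : ℝ) ^ T * B ^ K) :=
      Real.log_le_log (by positivity) (hk1.trans hmB)
    rw [Real.log_pow, hy, Real.log_rpow hN0, Real.log_mul (by positivity) (by positivity),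
      Real.log_pow, Real.log_pow] at h1
    exact_mod_cast h1
  have hlB : 0 ≤ Real.log B := Real.log_nonneg hB1
  have hk4 : (k : ℝ) ≤ T / ε + Real.log B * (1 / 4) := by
    have hpos : 0 < ε * Real.log N := by positivity
    have h1 : (k : ℝ) ≤ (T * Real.log N + K * Real.log B) / (ε * Real.log N) :=
      (le_div_iff₀ hpos).mpr hk3
    have h2 : (T * Real.log N + K * Real.log B) / (ε * Real.log N) =
        T / ε + Real.log B * (K / (ε * Real.log N)) := by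
      field_simp
    have h3 : Real.log B * (K / (ε * Real.log N)) ≤ Real.log B * (1 / 4) := by
      refine mul_le_mul_of_nonneg_left ?_ hlB
      rw [div_le_iff₀ hpos]
      linarith
    rw [h2] at h1
    linarith
  have hcard : ((BX.rd y X m).card : ℝ) ≤ (2 : ℝ) ^ k := by
    have h1 := (card_le_card (rd_sub y X m hm)).trans hk2
    exact_mod_cast h1
  have h2k : (2 : ℝ) ^ k ≤ Real.exp k := by
    have h1 : (2 : ℝ) ≤ Real.exp 1 := by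
      have := Real.add_one_le_exp (1 : ℝ)
      linarith
    calc (2 : ℝ) ^ k ≤ (Real.exp 1) ^ k := pow_le_pow_left₀ (by norm_num) h1 k
      _ = Real.exp k := by rw [← Real.exp_nat_mul, mul_one]
  calc ((BX.rd y X m).card : ℝ) ≤ Real.exp k := hcard.trans h2k
    _ ≤ Real.exp (T / ε + Real.log B * (1 / 4)) := Real.exp_le_exp.mpr hk4
    _ = Real.exp (T / ε) * B ^ (1 / 4 : ℝ) := by
        rw [Real.exp_add, Real.rpow_def_of_pos hB0]

/-- the number of prime factors of a rough number up to `N` -/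
theorem omega_le {ε : ℝ} (hε : 0 < ε) {N d : ℕ} (hN2 : 2 ≤ N) (hd1 : 1 ≤ d) (hdN : d ≤ N)
    (hr : ∀ p : ℕ, p.Prime → p ∣ d → (N : ℝ) ^ ε < (p : ℝ)) :
    (d.primeFactors.card : ℝ) ≤ 1 / ε := by
  have hN0 : (0 : ℝ) < (N : ℝ) := by exact_mod_cast (by omega : 0 < N)
  have hlog0 : 0 < Real.log N := Real.log_pos (by exact_mod_cast hN2)
  have h1 : ((N : ℝ) ^ ε) ^ d.primeFactors.card ≤ (N : ℝ) := by
    calc ((N : ℝ) ^ ε) ^ d.primeFactors.card = ∏ _p ∈ d.primeFactors, (N : ℝ) ^ ε := by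
          rw [prod_const]
      _ ≤ ∏ p ∈ d.primeFactors, (p : ℝ) :=
          prod_le_prod (fun _ _ => by positivity) fun p hp =>
            (hr p (Nat.prime_of_mem_primeFactors hp) (Nat.dvd_of_mem_primeFactors hp)).le
      _ = ((∏ p ∈ d.primeFactors, p : ℕ) : ℝ) := by push_cast; rfl
      _ ≤ (d : ℝ) := by
          exact_mod_cast Nat.le_of_dvd (by omega) (Nat.prod_primeFactors_dvd d)
      _ ≤ (N : ℝ) := by exact_mod_cast hdN
  have h2 : Real.log (((N : ℝ) ^ ε) ^ d.primeFactors.card) ≤ Real.log N :=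
    Real.log_le_log (by positivity) h1
  rw [Real.log_pow, Real.log_rpow hN0] at h2
  rw [le_div_iff₀ hε]
  have h3 : ((d.primeFactors.card : ℝ) * ε) * Real.log N ≤ 1 * Real.log N := by linarith
  exact le_of_mul_le_mul_right h3 hlog0

/-- the weights of the moduli are bounded -/
theorem kw_le (k : ℕ) {ε : ℝ} (hε : 0 < ε) {N d : ℕ} (hN2 : 2 ≤ N) (hd1 : 1 ≤ d) (hdN : d ≤ N)
    (hr : ∀ p : ℕ, p.Prime → p ∣ d → (N : ℝ) ^ ε < (p : ℝ)) :
    kw k d ≤ ((k : ℝ) + 1) ^ (1 / ε) := by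
  have h1 := omega_le hε hN2 hd1 hdN hr
  have hk : (0 : ℝ) ≤ k := Nat.cast_nonneg k
  unfold kw
  calc (k : ℝ) ^ d.primeFactors.card ≤ ((k : ℝ) + 1) ^ d.primeFactors.card :=
        pow_le_pow_left₀ hk (by linarith) _
    _ = ((k : ℝ) + 1) ^ (d.primeFactors.card : ℝ) := (Real.rpow_natCast _ _).symm
    _ ≤ ((k : ℝ) + 1) ^ (1 / ε) := Real.rpow_le_rpow_of_exponent_le (by linarith) h1

theorem kw_nonneg (k d : ℕ) : 0 ≤ kw k d := by unfold kw; positivity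

theorem abs_dk_le (k d : ℕ) (m : ℤ) : |dk k d m| ≤ (if (d : ℤ) ∣ m then 1 else 0) + kw k d / d := by
  unfold dk
  have h1 : 0 ≤ kw k d / d := div_nonneg (kw_nonneg k d) (Nat.cast_nonneg _)
  split_ifs with h
  · rw [abs_le]; constructor <;> linarith
  · rw [abs_le]; constructor <;> linarith

theorem abs_RK_le {k : ℕ} {ε : ℝ} (hε : 0 < ε) {N X : ℕ} (hN2 : 2 ≤ N) (hX : X ≤ N)
    (S : Finset (ℤ × ℕ)) (c : ℕ → ℝ) (hc : CofK ((N : ℝ) ^ ε) X S c) (n : ℤ) :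
    |RK k c X S n| ≤ ((BX.rd ((N : ℝ) ^ ε) X (Fp S n)).card : ℝ) +
      ((k : ℝ) + 1) ^ (1 / ε) * ∑ d ∈ BX.roughs ((N : ℝ) ^ ε) X, 1 / (d : ℝ) := by
  classical
  obtain ⟨C₁, hC₁⟩ : ∃ C₁ : ℝ, C₁ = ((k : ℝ) + 1) ^ (1 / ε) := ⟨_, rfl⟩
  have hC₁0 : 0 ≤ C₁ := by rw [hC₁]; positivity
  rw [← hC₁]
  unfold RK
  have h1 : ∀ d ∈ Icc 1 X, |c d * dk k d (Fp S n)| ≤
      if BX.Rough ((N : ℝ) ^ ε) d then (if (d : ℤ) ∣ Fp S n then 1 else 0) + C₁ * (1 / (d : ℝ))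
        else 0 := by
    intro d hd
    by_cases h0 : c d = 0
    · rw [h0, zero_mul, abs_zero]
      split_ifs <;> positivity
    · obtain ⟨hm1, hm2, hm3, hm4⟩ := hc.supp d h0
      have hR : BX.Rough ((N : ℝ) ^ ε) d := ⟨hm1, fun p hp hpd => (hm4 p hp hpd).1⟩
      rw [if_pos hR, abs_mul]
      have h2 := abs_dk_le k d (Fp S n)
      have h3 : kw k d ≤ C₁ := by
        rw [hC₁]
        exact kw_le k hε hN2 hm1.le (hm2.trans hX) hR.2
      have h4 : kw k d / d ≤ C₁ * (1 / (d : ℝ)) := by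
        rw [div_eq_mul_one_div]
        exact mul_le_mul_of_nonneg_right h3 (by positivity)
      calc |c d| * |dk k d (Fp S n)| ≤ 1 * ((if (d : ℤ) ∣ Fp S n then 1 else 0) + kw k d / d) :=
            mul_le_mul (hc.bd d) h2 (abs_nonneg _) zero_le_one
        _ ≤ _ := by rw [one_mul]; linarith
  calc |∑ d ∈ Icc 1 X, c d * dk k d (Fp S n)| ≤ ∑ d ∈ Icc 1 X, |c d * dk k d (Fp S n)| :=
        abs_sum_le_sum_abs _ _
    _ ≤ ∑ d ∈ Icc 1 X, if BX.Rough ((N : ℝ) ^ ε) d then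
        (if (d : ℤ) ∣ Fp S n then 1 else 0) + C₁ * (1 / (d : ℝ)) else 0 :=
        sum_le_sum h1
    _ = ∑ d ∈ BX.roughs ((N : ℝ) ^ ε) X, ((if (d : ℤ) ∣ Fp S n then 1 else 0) +
        C₁ * (1 / (d : ℝ))) := by
        unfold BX.roughs
        rw [sum_filter]
    _ = _ := by
        rw [sum_add_distrib, ← mul_sum]
        congr 1
        unfold BX.rd
        rw [sum_boole]

theorem PBK (hRA : BX.St_RA) : St_PBK := by
  intro k M ε hε
  obtain ⟨C2, hC2, h2⟩ := hRA ε hε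
  obtain ⟨C₁, hC₁⟩ : ∃ C₁ : ℝ, C₁ = ((k : ℝ) + 1) ^ (1 / ε) := ⟨_, rfl⟩
  have hC₁0 : 0 < C₁ := by rw [hC₁]; positivity
  obtain ⟨E, hE⟩ : ∃ E : ℝ, E = Real.exp (((M + 1) * k : ℕ) / ε) := ⟨_, rfl⟩
  have hE0 : 0 < E := by rw [hE]; positivity
  refine ⟨max ⌈Real.exp (4 * k / ε)⌉₊ 2, E + C₁ * C2, by positivity, ?_⟩
  intro N X hN hX S hS
  have hNe : Real.exp (4 * k / ε) ≤ (N : ℝ) := Nat.ceil_le.mp ((le_max_left _ _).trans hN)
  have hN2 : 2 ≤ N := (le_max_right _ _).trans hN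
  have hN1 : (1 : ℝ) ≤ N := by exact_mod_cast (by omega : 1 ≤ N)
  have hB : ∀ n : ℤ, (1 : ℝ) ≤ 1 + |(n : ℝ)| / N := by
    intro n
    have : 0 ≤ |(n : ℝ)| / N := by positivity
    linarith
  have hBr : ∀ n : ℤ, (1 : ℝ) ≤ (1 + |(n : ℝ)| / N) ^ (1 / 4 : ℝ) := fun n =>
    Real.one_le_rpow (hB n) (by norm_num)
  have hkey : ∀ n : ℤ, Fp S n ≠ 0 →
      ((BX.rd ((N : ℝ) ^ ε) X (Fp S n)).card : ℝ) ≤
        E * (1 + |(n : ℝ)| / N) ^ (1 / 4 : ℝ) := fun n hn => by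
    rw [hE]
    exact rd_card_le hε X ((M + 1) * k) k hN2 hNe (hB n) hn (Fp_le hN1 hS n)
  have hCC : 0 < C₁ * C2 := mul_pos hC₁0 hC2
  refine ⟨fun n hn => ?_, fun c hc n => ?_⟩
  · have h1 := hkey n hn
    have h3 := hBr n
    nlinarith
  · unfold rK
    have h3 := hBr n
    split_ifs with hn
    · rw [abs_zero]
      positivity
    · have h4 := abs_RK_le (k := k) hε hN2 hX S c hc n
      rw [← hC₁] at h4
      have h1 := hkey n hn
      have h5 : ∑ d ∈ BX.roughs ((N : ℝ) ^ ε) X, 1 / (d : ℝ) ≤ C2 :=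
        (sum_le_sum_of_subset_of_nonneg (BX.TaskPB.roughs_mono _ hX)
          fun _ _ _ => by positivity).trans (h2 N hN2)
      have h6 : C₁ * ∑ d ∈ BX.roughs ((N : ℝ) ^ ε) X, 1 / (d : ℝ) ≤ C₁ * C2 :=
        mul_le_mul_of_nonneg_left h5 hC₁0.le
      nlinarith

end Pool.Agent.W82.KT
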